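import Mathlib

/-!
# Deleting four rows of a Hadamard matrix need not leave a diametrically maximal set

From any normalized Hadamard matrix `K` of order `m ≥ 2` we build a normalized Hadamard matrix of
order `4 m` whose set of columns, after deletion of the first four rows, is not diametrically
maximal.
-/

set_option autoImplicit false

open Matrix Finset

namespace Pool.Agent.Results.MP_1efffb_co.DeleteFour

/-- `H` is a normalized Hadamard matrix of order `n`. -/
def IsNormHadamard {n : ℕ} (H : Matrix (Fin n) (Fin n) ℤ) : Prop :=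
  (∀ i j, H i j = 1 ∨ H i j = -1) ∧ H * Hᵀ = (n : ℤ) • 1 ∧ Hᵀ * H = (n : ℤ) • 1 ∧
    (∀ i j : Fin n, (i : ℕ) = 0 → H i j = 1) ∧ (∀ i j : Fin n, (j : ℕ) = 0 → H i j = 1)

/-- The cube `Q_m = {1, -1} ^ m`. -/
def cube (m : ℕ) : Set (Fin m → ℤ) := {x | ∀ i, x i = 1 ∨ x i = -1}

/-- The diameter of a set for the Hamming distance. -/
noncomputable def diam {m : ℕ} (A : Set (Fin m → ℤ)) : ℕ :=
  sSup {d | ∃ x ∈ A, ∃ y ∈ A, hammingDist x y = d}

/-- `A` is diametrically maximal in `Q_m`. -/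
def DiamMax {m : ℕ} (A : Set (Fin m → ℤ)) : Prop :=
  ∀ x ∈ cube m, x ∉ A → diam A < diam (insert x A)

/-- The set of columns of `H_{-r}` (the first `r` rows of `H` are deleted). -/
def colSet {n : ℕ} (H : Matrix (Fin n) (Fin n) ℤ) (r : ℕ) : Set (Fin (n - r) → ℤ) :=
  Set.range fun (j : Fin n) (i : Fin (n - r)) => H ⟨r + i, by omega⟩ j

def O : Matrix (Fin 4) (Fin 4) ℤ := !![1, 1, 1, 1; 1, 1, -1, -1; 1, -1, 1, -1; 1, -1, -1, 1]
def T : Matrix (Fin 4) (Fin 4) ℤ := !![1, 1, 1, -1; 1, 1, -1, 1; 1, -1, 1, 1; 1, -1, -1, -1]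
def τ : Fin 4 → ℤ := ![1, 1, 1, -1]

theorem OO (a b : Fin 4) : ∑ c, O a c * O b c = if a = b then 4 else 0 := by
  revert a b; decide
theorem TT (a b : Fin 4) : ∑ c, T a c * T b c = if a = b then 4 else 0 := by
  revert a b; decide
theorem OOc (a b : Fin 4) : ∑ c, O c a * O c b = if a = b then 4 else 0 := by
  revert a b; decide
theorem TTc (a b : Fin 4) : ∑ c, T c a * T c b = if a = b then 4 else 0 := by
  revert a b; decide
theorem τT (b : Fin 4) : ∑ c, τ c * T c b = 2 := by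
  revert b; decide
theorem O_pm (a b : Fin 4) : O a b = 1 ∨ O a b = -1 := by
  fin_cases a <;> fin_cases b <;> simp [O]
theorem T_pm (a b : Fin 4) : T a b = 1 ∨ T a b = -1 := by
  fin_cases a <;> fin_cases b <;> simp [T]
theorem τ_pm (a : Fin 4) : τ a = 1 ∨ τ a = -1 := by
  revert a; decide

variable {m : ℕ}

/-- the block matrix -/
def blk (K : Matrix (Fin m) (Fin m) ℤ) : Matrix (Fin m × Fin 4) (Fin m × Fin 4) ℤ :=
  fun p q => if (p.1 : ℕ) = 0 then O p.2 q.2 else K p.1 q.1 * T p.2 q.2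

def big (K : Matrix (Fin m) (Fin m) ℤ) : Matrix (Fin (m * 4)) (Fin (m * 4)) ℤ :=
  (blk K).submatrix finProdFinEquiv.symm finProdFinEquiv.symm

theorem blk_pm (K : Matrix (Fin m) (Fin m) ℤ) (hK : ∀ i j, K i j = 1 ∨ K i j = -1)
    (p q : Fin m × Fin 4) : blk K p q = 1 ∨ blk K p q = -1 := by
  unfold blk
  split_ifs
  · exact O_pm _ _
  · rcases hK p.1 q.1 with h | h <;> rcases T_pm p.2 q.2 with h' | h' <;> simp [h, h']

theorem blk_col (K : Matrix (Fin m) (Fin m) ℤ) (hK : IsNormHadamard K) (i : Fin m)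
    (p q : Fin m × Fin 4) :
    ∑ a, blk K (i, a) p * blk K (i, a) q = K i p.1 * K i q.1 * if p.2 = q.2 then 4 else 0 := by
  by_cases h : (i : ℕ) = 0
  · simp only [blk, h, if_true]
    rw [OOc, hK.2.2.2.1 i _ h, hK.2.2.2.1 i _ h]
    ring
  · simp only [blk, h, if_false]
    rw [← TTc, Finset.mul_sum]
    exact Finset.sum_congr rfl fun a _ => by ring

theorem K_col (K : Matrix (Fin m) (Fin m) ℤ) (hK : IsNormHadamard K) (j j' : Fin m) :
    ∑ i, K i j * K i j' = if j = j' then (m : ℤ) else 0 := by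
  have := congrFun (congrFun hK.2.2.1 j) j'
  rw [Matrix.mul_apply] at this
  simp only [Matrix.transpose_apply, Matrix.smul_apply, Matrix.one_apply, smul_eq_mul] at this
  rw [this]
  split_ifs <;> simp

theorem K_row (K : Matrix (Fin m) (Fin m) ℤ) (hK : IsNormHadamard K) (i i' : Fin m) :
    ∑ j, K i j * K i' j = if i = i' then (m : ℤ) else 0 := by
  have := congrFun (congrFun hK.2.1 i) i'
  rw [Matrix.mul_apply] at this
  simp only [Matrix.transpose_apply, Matrix.smul_apply, Matrix.one_apply, smul_eq_mul] at this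
  rw [this]
  split_ifs <;> simp

theorem blk_cols (K : Matrix (Fin m) (Fin m) ℤ) (hK : IsNormHadamard K) :
    (blk K)ᵀ * blk K = ((m * 4 : ℕ) : ℤ) • 1 := by
  ext p q
  rw [Matrix.mul_apply, Fintype.sum_prod_type]
  simp only [Matrix.transpose_apply, Matrix.smul_apply, Matrix.one_apply, smul_eq_mul]
  rw [Finset.sum_congr rfl fun i _ => blk_col K hK i p q, ← Finset.sum_mul, K_col K hK]
  obtain ⟨p1, p2⟩ := p
  obtain ⟨q1, q2⟩ := q
  by_cases h1 : p1 = q1 <;> by_cases h2 : p2 = q2 <;> simp [h1, h2]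

theorem blk_rows (K : Matrix (Fin m) (Fin m) ℤ) (hK : IsNormHadamard K) :
    blk K * (blk K)ᵀ = ((m * 4 : ℕ) : ℤ) • 1 := by
  ext p q
  rw [Matrix.mul_apply, Fintype.sum_prod_type]
  simp only [Matrix.transpose_apply, Matrix.smul_apply, Matrix.one_apply, smul_eq_mul]
  obtain ⟨p1, p2⟩ := p
  obtain ⟨q1, q2⟩ := q
  have row0 : ∀ i i' : Fin m, (i : ℕ) = 0 → (i' : ℕ) ≠ 0 → ∑ j, K i' j = 0 := by
    intro i i' h h'
    have := K_row K hK i i'
    rw [if_neg (by rintro rfl; exact h' h)] at this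
    rw [← this]
    exact Finset.sum_congr rfl fun j _ => by rw [hK.2.2.2.1 i j h]; ring
  by_cases hp : (p1 : ℕ) = 0 <;> by_cases hq : (q1 : ℕ) = 0
  · have : p1 = q1 := Fin.ext (by omega)
    subst this
    simp only [blk, hp, if_true]
    rw [Finset.sum_congr rfl fun j _ => OO p2 q2]
    by_cases h2 : p2 = q2 <;> simp [h2]
  · have hne : p1 ≠ q1 := by rintro rfl; exact hq hp
    simp only [blk, hp, hq, if_true, if_false]
    have : ∀ j, ∑ b, O p2 b * (K q1 j * T q2 b) = K q1 j * ∑ b, O p2 b * T q2 b := by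
      intro j
      rw [Finset.mul_sum]
      exact Finset.sum_congr rfl fun b _ => by ring
    rw [Finset.sum_congr rfl fun j _ => this j, ← Finset.sum_mul, row0 p1 q1 hp hq]
    simp [hne]
  · have hne : p1 ≠ q1 := by rintro rfl; exact hp hq
    simp only [blk, hp, hq, if_true, if_false]
    have : ∀ j, ∑ b, K p1 j * T p2 b * O q2 b = K p1 j * ∑ b, T p2 b * O q2 b := by
      intro j
      rw [Finset.mul_sum]
      exact Finset.sum_congr rfl fun b _ => by ring
    rw [Finset.sum_congr rfl fun j _ => this j, ← Finset.sum_mul, row0 q1 p1 hq hp]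
    simp [hne]
  · simp only [blk, hp, hq, if_false]
    have : ∀ j, ∑ b, K p1 j * T p2 b * (K q1 j * T q2 b) =
        K p1 j * K q1 j * ∑ b, T p2 b * T q2 b := by
      intro j
      rw [Finset.mul_sum]
      exact Finset.sum_congr rfl fun b _ => by ring
    rw [Finset.sum_congr rfl fun j _ => this j, ← Finset.sum_mul, K_row K hK, TT]
    by_cases h1 : p1 = q1 <;> by_cases h2 : p2 = q2 <;> simp [h1, h2]

theorem val_symm (k : Fin (m * 4)) :
    (k : ℕ) = (finProdFinEquiv.symm k).2 + 4 * (finProdFinEquiv.symm k).1 := by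
  conv_lhs => rw [← finProdFinEquiv.apply_symm_apply k]
  rfl

theorem big_hadamard (K : Matrix (Fin m) (Fin m) ℤ) (hK : IsNormHadamard K) :
    IsNormHadamard (big K) := by
  refine ⟨fun i j => blk_pm K hK.1 _ _, ?_, ?_, ?_, ?_⟩
  · rw [big, Matrix.transpose_submatrix, Matrix.submatrix_mul_equiv, blk_rows K hK,
      Matrix.submatrix_smul, Pi.smul_apply, Pi.smul_apply, Matrix.submatrix_one_equiv]
  · rw [big, Matrix.transpose_submatrix, Matrix.submatrix_mul_equiv, blk_cols K hK,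
      Matrix.submatrix_smul, Pi.smul_apply, Pi.smul_apply, Matrix.submatrix_one_equiv]
  · intro i j hi
    have h := val_symm i
    have h1 : ((finProdFinEquiv.symm i).1 : ℕ) = 0 := by omega
    have h2 : (finProdFinEquiv.symm i).2 = 0 := Fin.ext (by simp; omega)
    show blk K _ _ = 1
    rw [blk, if_pos h1, h2]
    generalize (finProdFinEquiv.symm j).2 = b
    revert b; decide
  · intro i j hj
    have h := val_symm j
    have h1 : ((finProdFinEquiv.symm j).1 : ℕ) = 0 := by omega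
    have h2 : (finProdFinEquiv.symm j).2 = 0 := Fin.ext (by simp; omega)
    show blk K _ _ = 1
    rw [blk, h2, hK.2.2.2.2 _ _ h1]
    generalize (finProdFinEquiv.symm i).2 = a
    split_ifs
    · revert a; decide
    · rw [one_mul]; revert a; decide

/-- sums over the last `n - r` indices -/
theorem sum_tail {n : ℕ} (r : ℕ) (f : Fin n → ℤ) :
    ∑ i : Fin (n - r), f ⟨r + i, by omega⟩ = ∑ k : Fin n, if r ≤ (k : ℕ) then f k else 0 := by
  let g : ℕ → ℤ := fun k => if h : k < n then (if r ≤ k then f ⟨k, h⟩ else 0) else 0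
  have h1 : ∑ k : Fin n, (if r ≤ (k : ℕ) then f k else 0) = ∑ k ∈ range n, g k := by
    rw [← Fin.sum_univ_eq_sum_range]
    refine Finset.sum_congr rfl fun k _ => ?_
    simp [g, k.2]
  have h2 : ∑ i : Fin (n - r), f ⟨r + i, by omega⟩ = ∑ k ∈ range (n - r), g (r + k) := by
    rw [← Fin.sum_univ_eq_sum_range (fun k => g (r + k))]
    refine Finset.sum_congr rfl fun k _ => ?_
    have : r + (k : ℕ) < n := by omega
    simp [g, this]
  rw [h1, h2]
  rcases le_or_gt r n with hrn | hrn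
  · rw [← Finset.sum_Ico_eq_sum_range, Finset.range_eq_Ico, ← Finset.sum_Ico_consecutive g
      (Nat.zero_le r) hrn, Finset.sum_eq_zero (s := Ico 0 r), zero_add]
    intro k hk
    have := (Finset.mem_Ico.1 hk).2
    simp only [g]
    split_ifs with h3 h4
    · omega
    · rfl
    · rfl
  · rw [Nat.sub_eq_zero_of_le hrn.le, Finset.range_zero, Finset.sum_empty]
    refine (Finset.sum_eq_zero fun k hk => ?_).symm
    have := Finset.mem_range.1 hk
    simp only [g]
    split_ifs with h3 h4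
    · omega
    · rfl

theorem ip_dist {M : ℕ} (x y : Fin M → ℤ) (hx : x ∈ cube M) (hy : y ∈ cube M) :
    ∑ i, x i * y i = (M : ℤ) - 2 * (hammingDist x y : ℤ) := by
  have h1 : ∀ i, x i * y i = 1 - 2 * (if x i ≠ y i then 1 else 0) := by
    intro i
    rcases hx i with h | h <;> rcases hy i with h' | h' <;> simp [h, h']
  rw [Finset.sum_congr rfl fun i _ => h1 i, Finset.sum_sub_distrib, ← Finset.mul_sum,
    Finset.sum_boole]
  simp [hammingDist]

theorem tail_blk (F : Fin m × Fin 4 → ℤ) :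
    ∑ i : Fin (m * 4 - 4), F (finProdFinEquiv.symm ⟨4 + i, by omega⟩) =
      ∑ i : Fin m, if (i : ℕ) = 0 then 0 else ∑ a, F (i, a) := by
  rw [sum_tail 4 (fun k => F (finProdFinEquiv.symm k)), ← Equiv.sum_comp finProdFinEquiv,
    Fintype.sum_prod_type]
  refine Finset.sum_congr rfl fun i _ => ?_
  split_ifs with h
  · refine Finset.sum_eq_zero fun a _ => if_neg ?_
    rw [finProdFinEquiv_apply_val]
    simp only
    omega
  · refine Finset.sum_congr rfl fun a _ => ?_
    rw [if_pos, Equiv.symm_apply_apply]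
    rw [finProdFinEquiv_apply_val]
    simp only
    omega

/-- the column of `big K` of index `(j, b)` without its first four entries -/
def col (K : Matrix (Fin m) (Fin m) ℤ) (q : Fin m × Fin 4) : Fin (m * 4 - 4) → ℤ :=
  fun i => blk K (finProdFinEquiv.symm ⟨4 + i, by omega⟩) q

/-- the additional point -/
def pt (m : ℕ) : Fin (m * 4 - 4) → ℤ :=
  fun i => τ (finProdFinEquiv.symm (⟨4 + i, by omega⟩ : Fin (m * 4))).2

theorem colSet_eq (K : Matrix (Fin m) (Fin m) ℤ) : colSet (big K) 4 = Set.range (col K) := by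
  ext x
  constructor
  · rintro ⟨j, rfl⟩
    exact ⟨finProdFinEquiv.symm j, rfl⟩
  · rintro ⟨q, rfl⟩
    refine ⟨finProdFinEquiv q, ?_⟩
    funext i
    show blk K _ (finProdFinEquiv.symm (finProdFinEquiv q)) = _
    rw [Equiv.symm_apply_apply]
    rfl

theorem sum_skip (hm : 0 < m)
    (f : Fin m → ℤ) (c : ℤ) (hf : ∀ i : Fin m, (i : ℕ) = 0 → f i = c) :
    ∑ i : Fin m, (if (i : ℕ) = 0 then 0 else f i) = ∑ i, f i - c := by
  have h : ∀ i : Fin m, f i = (if (i : ℕ) = 0 then 0 else f i) +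
      (if i = ⟨0, hm⟩ then c else 0) := by
    intro i
    by_cases h0 : (i : ℕ) = 0
    · have : i = ⟨0, hm⟩ := Fin.ext h0
      rw [if_pos h0, if_pos this, hf i h0, zero_add]
    · have : i ≠ ⟨0, hm⟩ := fun h => h0 (by rw [h])
      rw [if_neg h0, if_neg this, add_zero]
  rw [Finset.sum_congr rfl fun i (_ : i ∈ univ) => h i, Finset.sum_add_distrib,
    Finset.sum_ite_eq']
  simp

theorem col_ip (K : Matrix (Fin m) (Fin m) ℤ) (hK : IsNormHadamard K) (hm : 0 < m)
    (p q : Fin m × Fin 4) :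
    ∑ i, col K p i * col K q i =
      ((if p.1 = q.1 then (m : ℤ) else 0) - 1) * (if p.2 = q.2 then 4 else 0) := by
  have := tail_blk (m := m) (fun r => blk K r p * blk K r q)
  rw [show ∑ i, col K p i * col K q i = _ from this]
  simp only [blk_col K hK]
  rw [sum_skip hm _ (if p.2 = q.2 then 4 else 0), ← Finset.sum_mul, K_col K hK]
  · ring
  · intro i hi
    rw [hK.2.2.2.1 i _ hi, hK.2.2.2.1 i _ hi]
    ring

theorem pt_ip (K : Matrix (Fin m) (Fin m) ℤ) (hK : IsNormHadamard K) (hm : 0 < m)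
    (q : Fin m × Fin 4) :
    ∑ i, pt m i * col K q i = ((if (q.1 : ℕ) = 0 then (m : ℤ) else 0) - 1) * 2 := by
  have := tail_blk (m := m) (fun r => τ r.2 * blk K r q)
  rw [show ∑ i, pt m i * col K q i = _ from this]
  have h : ∀ i : Fin m, (if (i : ℕ) = 0 then 0 else ∑ a, τ a * blk K (i, a) q) =
      if (i : ℕ) = 0 then 0 else K i q.1 * 2 := by
    intro i
    by_cases h0 : (i : ℕ) = 0
    · rw [if_pos h0, if_pos h0]
    · rw [if_neg h0, if_neg h0, ← τT q.2, Finset.mul_sum]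
      refine Finset.sum_congr rfl fun a _ => ?_
      rw [blk, if_neg h0]
      ring
  rw [Finset.sum_congr rfl fun i _ => h i, sum_skip hm _ 2, ← Finset.sum_mul]
  · have h2 : ∑ i, K i q.1 = if (q.1 : ℕ) = 0 then (m : ℤ) else 0 := by
      have := K_col K hK q.1 ⟨0, hm⟩
      rw [show (∑ i, K i q.1 * K i ⟨0, hm⟩) = ∑ i, K i q.1 from
        Finset.sum_congr rfl fun i _ => by rw [hK.2.2.2.2 i ⟨0, hm⟩ rfl, mul_one]] at this
      rw [this]
      simp only [Fin.ext_iff]
    rw [h2]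
    ring
  · intro i hi
    rw [hK.2.2.2.1 i _ hi]
    ring

theorem col_mem (K : Matrix (Fin m) (Fin m) ℤ) (hK : IsNormHadamard K) (q : Fin m × Fin 4) :
    col K q ∈ cube (m * 4 - 4) := fun i => blk_pm K hK.1 _ _

theorem pt_mem : pt m ∈ cube (m * 4 - 4) := fun i => τ_pm _

theorem le_diam {M : ℕ} {A : Set (Fin M → ℤ)} {x y : Fin M → ℤ} (hx : x ∈ A) (hy : y ∈ A) :
    hammingDist x y ≤ diam A := by
  refine le_csSup ⟨M, ?_⟩ ⟨x, hx, y, hy, rfl⟩
  rintro d ⟨x, -, y, -, rfl⟩
  simpa using hammingDist_le_card_fintype (x := x) (y := y)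

theorem not_diamMax (K : Matrix (Fin m) (Fin m) ℤ) (hK : IsNormHadamard K) (hm : 2 ≤ m) :
    ¬ DiamMax (colSet (big K) 4) := by
  rw [colSet_eq]
  intro h
  have hcast : ((m * 4 - 4 : ℕ) : ℤ) = 4 * m - 4 := by
    rw [Nat.cast_sub (by omega)]; push_cast; ring
  have hd : ∀ q, (hammingDist (pt m) (col K q) : ℤ) ≤ 2 * m - 1 ∧
      0 < (hammingDist (pt m) (col K q) : ℤ) := by
    intro q
    have h1 := pt_ip K hK (by omega) q
    rw [ip_dist _ _ pt_mem (col_mem K hK q), hcast] at h1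
    split_ifs at h1 <;> constructor <;> omega
  have hbig : (2 * m : ℤ) ≤ diam (Set.range (col K)) := by
    have h1 := col_ip K hK (by omega) (⟨0, by omega⟩, 0) (⟨1, by omega⟩, 0)
    rw [ip_dist _ _ (col_mem K hK _) (col_mem K hK _), hcast] at h1
    simp only [Fin.mk.injEq, zero_ne_one, if_false, if_true] at h1
    have h2 := le_diam (A := Set.range (col K)) ⟨(⟨0, by omega⟩, 0), rfl⟩
      ⟨((⟨1, by omega⟩ : Fin m), (0 : Fin 4)), rfl⟩
    zify at h2
    omega
  have hnot : pt m ∉ Set.range (col K) := by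
    rintro ⟨q, hq⟩
    have := (hd q).2
    rw [hq, hammingDist_self] at this
    simp at this
  have := h (pt m) pt_mem hnot
  refine absurd this (not_lt.2 ?_)
  refine csSup_le ⟨0, pt m, Set.mem_insert _ _, pt m, Set.mem_insert _ _, hammingDist_self _⟩ ?_
  rintro d ⟨x, hx, y, hy, rfl⟩
  rcases Set.mem_insert_iff.1 hx with rfl | hx <;> rcases Set.mem_insert_iff.1 hy with rfl | hy
  · rw [hammingDist_self]; exact Nat.zero_le _
  · obtain ⟨q, rfl⟩ := hy
    have := (hd q).1
    zify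
    omega
  · obtain ⟨q, rfl⟩ := hx
    have := (hd q).1
    rw [hammingDist_comm]
    zify
    omega
  · exact le_diam hx hy

/-- arbitrarily large normalized Hadamard matrices -/
theorem exists_hadamard (n₀ : ℕ) : ∃ m ≥ n₀, 2 ≤ m ∧
    ∃ K : Matrix (Fin m) (Fin m) ℤ, IsNormHadamard K := by
  have base : ∃ K : Matrix (Fin 1) (Fin 1) ℤ, IsNormHadamard K := by
    refine ⟨1, fun i j => ?_, ?_, ?_, fun i j _ => ?_, fun i j _ => ?_⟩
    · rw [Subsingleton.elim i j]; simp
    · simp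
    · simp
    · rw [Subsingleton.elim i j]; simp
    · rw [Subsingleton.elim i j]; simp
  have h : ∀ k : ℕ, ∃ K : Matrix (Fin (4 ^ k)) (Fin (4 ^ k)) ℤ, IsNormHadamard K := by
    intro k
    induction k with
    | zero => exact base
    | succ k ih =>
      obtain ⟨K, hK⟩ := ih
      exact ⟨big K, big_hadamard K hK⟩
  have h4 : n₀ + 1 < 4 ^ (n₀ + 1) := Nat.lt_pow_self (by norm_num)
  exact ⟨4 ^ (n₀ + 1), by omega, by omega, h _⟩

/-- For every normalized Hadamard matrix `K` of order `m ≥ 2` there is a normalized Hadamard matrix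
`H` of order `4 m` such that the columns of `H_{-4}` do not form a diametrically maximal set; in
particular the assertion of Q1 fails for `r = 4`. -/
theorem result :
    (∀ (m : ℕ) (K : Matrix (Fin m) (Fin m) ℤ), 2 ≤ m → IsNormHadamard K →
      ∃ H : Matrix (Fin (m * 4)) (Fin (m * 4)) ℤ, IsNormHadamard H ∧ ¬ DiamMax (colSet H 4)) ∧
    (∀ n₀ : ℕ, ∃ n ≥ n₀, ∃ H : Matrix (Fin n) (Fin n) ℤ,
      IsNormHadamard H ∧ ¬ DiamMax (colSet H 4)) ∧
    ¬ (∀ r : ℕ, ∃ n₀ : ℕ, ∀ n ≥ n₀, ∀ H : Matrix (Fin n) (Fin n) ℤ,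
      IsNormHadamard H → DiamMax (colSet H r)) := by
  have h1 : ∀ n₀ : ℕ, ∃ n ≥ n₀, ∃ H : Matrix (Fin n) (Fin n) ℤ,
      IsNormHadamard H ∧ ¬ DiamMax (colSet H 4) := by
    intro n₀
    obtain ⟨m, hm, hm2, K, hK⟩ := exists_hadamard n₀
    exact ⟨m * 4, by omega, big K, big_hadamard K hK, not_diamMax K hK hm2⟩
  refine ⟨fun m K hm hK => ⟨big K, big_hadamard K hK, not_diamMax K hK hm⟩, h1, fun h => ?_⟩
  obtain ⟨n₀, h⟩ := h 4
  obtain ⟨n, hn, H, hH, hnot⟩ := h1 n₀
  exact hnot (h n hn H hH)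

end Pool.Agent.Results.MP_1efffb_co.DeleteFour
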